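import Pool.Agent.Helper801.NucQ

namespace Pool.Agent.Results.MP_49538b_co.Nuclei

open Pool.Agent.Helper801.NucM

variable {F : Type*} [Field F]

/-- A line of the affine plane over F, that is a coset of a one-dimensional subspace. -/
def IsLine (ℓ : Set (F × F)) : Prop :=
  ∃ P d : F × F, d ≠ 0 ∧ ℓ = {Q | ∃ r : F, Q = P + r • d}

/-- P is a nucleus of S : it is not in S and every line through P contains a point of S. -/
def IsNucleus (S : Set (F × F)) (P : F × F) : Prop :=
  P ∉ S ∧ ∀ ℓ : Set (F × F), IsLine ℓ → P ∈ ℓ → (ℓ ∩ S).Nonempty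

/-- Type (i) : the points of a line together with one point not on it. -/
def IsLineAndPoint (S : Set (F × F)) : Prop :=
  ∃ (ℓ : Set (F × F)) (P : F × F), IsLine ℓ ∧ P ∉ ℓ ∧ S = insert P ℓ

/-- Three points lie on a common line. -/
def Col (a b c : F × F) : Prop :=
  ∃ ℓ : Set (F × F), IsLine ℓ ∧ a ∈ ℓ ∧ b ∈ ℓ ∧ c ∈ ℓ

/-- T is the point set of a Desargues configuration : it consists of ten distinct points, a centre
O, the vertices A i and B i of two triangles in perspective from O, and the intersections C k of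
corresponding sides, which lie on an axis; no line of the plane contains four of the ten points
(so the triangles are not degenerate, and the ten lines are distinct and contain exactly three
points each). -/
def IsDesargues (T : Set (F × F)) : Prop :=
  ∃ (O : F × F) (A B C : Fin 3 → F × F),
    T = {O} ∪ Set.range A ∪ Set.range B ∪ Set.range C ∧ T.ncard = 10 ∧
    (∀ i, Col O (A i) (B i)) ∧
    (∀ i j k, i ≠ j → j ≠ k → i ≠ k → Col (A i) (A j) (C k) ∧ Col (B i) (B j) (C k)) ∧
    Col (C 0) (C 1) (C 2) ∧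
    ∀ ℓ : Set (F × F), IsLine ℓ → (ℓ ∩ T).ncard ≤ 3

theorem isNucleus_iff (S : Set (F × F)) (P : F × F) :
    IsNucleus S P ↔ P ∉ S ∧ ∀ d : F × F, d ≠ 0 → ∃ r : F, P + r • d ∈ S := by
  constructor
  · rintro ⟨h1, h2⟩
    refine ⟨h1, fun d hd => ?_⟩
    obtain ⟨Q, ⟨r, hr⟩, hQ⟩ := h2 {Q | ∃ r : F, Q = P + r • d} ⟨P, d, hd, rfl⟩ ⟨0, by simp⟩
    exact ⟨r, by rw [← hr]; exact hQ⟩
  · rintro ⟨h1, h2⟩
    refine ⟨h1, ?_⟩
    rintro ℓ ⟨P₀, d, hd, rfl⟩ ⟨r₀, hr₀⟩
    obtain ⟨r, hr⟩ := h2 d hd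
    refine ⟨P + r • d, ⟨r₀ + r, ?_⟩, hr⟩
    rw [hr₀, add_smul, add_assoc]

theorem col_of_det {a b c : F × F} (hab : b ≠ a) (h : det (b - a) (c - a) = 0) : Col a b c := by
  obtain ⟨r, hr⟩ := exists_of_det_eq_zero (sub_ne_zero.2 hab) h
  refine ⟨{Q | ∃ r : F, Q = a + r • (b - a)}, ⟨a, b - a, sub_ne_zero.2 hab, rfl⟩, ⟨0, by simp⟩,
    ⟨1, by simp⟩, ⟨r, ?_⟩⟩
  rw [← hr]; abel

theorem mem_line_iff {P d : F × F} (hd : d ≠ 0) (x : F × F) :
    (∃ r : F, x = P + r • d) ↔ det d (x - P) = 0 := by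
  constructor
  · rintro ⟨r, rfl⟩
    rw [add_sub_cancel_left, det_smul_right, det_self, mul_zero]
  · intro h
    obtain ⟨r, hr⟩ := exists_of_det_eq_zero hd h
    exact ⟨r, by rw [← hr]; abel⟩

/-- Let F be a finite field with q elements. Every set of q + 1 points of the affine plane over F
with exactly q - 1 nuclei is a line together with a point not on it, or q = 5 and the set together
with its four nuclei is a Desargues configuration. -/
theorem result {F : Type*} [Field F] [Fintype F] (S : Set (F × F))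
    (hS : S.ncard = Fintype.card F + 1)
    (hN : {P : F × F | IsNucleus S P}.ncard = Fintype.card F - 1) :
    IsLineAndPoint S ∨
      (Fintype.card F = 5 ∧ IsDesargues (S ∪ {P : F × F | IsNucleus S P})) := by
  classical
  have hq : 1 < Fintype.card F := Fintype.one_lt_card
  set N : Set (F × F) := {P : F × F | IsNucleus S P} with hNdef
  rw [Set.ncard_eq_toFinset_card'] at hS hN
  let Γ : Conf F :=
    { S := S.toFinset
      N := N.toFinset
      hS := hS
      hN := by rw [hN]; omega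
      hnot := fun n hn => by
        rw [Set.mem_toFinset] at hn ⊢
        exact hn.1
      hnuc := fun n hn d hd => by
        rw [Set.mem_toFinset] at hn
        obtain ⟨r, hr⟩ := ((isNucleus_iff S n).1 hn).2 d hd
        exact ⟨r, Set.mem_toFinset.2 hr⟩
      hall := fun n hn h => by
        rw [Set.mem_toFinset] at hn ⊢
        refine (isNucleus_iff S n).2 ⟨hn, fun d hd => ?_⟩
        obtain ⟨r, hr⟩ := h d hd
        exact ⟨r, Set.mem_toFinset.1 hr⟩ }
  have hΓS : ∀ x, x ∈ Γ.S ↔ x ∈ S := fun x => Set.mem_toFinset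
  have hΓN : ∀ x, x ∈ Γ.N ↔ x ∈ N := fun x => Set.mem_toFinset
  by_cases hc : Γ.Coll
  · left
    obtain ⟨s₀, -, P, d, hd, h1, h2⟩ := Γ.type_one hc
    refine ⟨{Q | ∃ r : F, Q = P + r • d}, s₀, ⟨P, d, hd, rfl⟩, ?_, ?_⟩
    · intro h3
      exact h1 ((mem_line_iff hd s₀).1 h3)
    · ext x
      rw [← hΓS, h2 x]
      rfl
  · right
    have h5 := Γ.card_eq_five hc
    refine ⟨h5, ?_⟩
    obtain ⟨O, A, B, C, hT, h1, h2, h3, h4⟩ := Γ.desargues h5 hc
    have hTe : S ∪ N = ((Γ.S ∪ Γ.N : Finset (F × F)) : Set (F × F)) := by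
      ext x
      rw [Finset.coe_union]
      simp only [Set.mem_union, Finset.mem_coe, hΓS, hΓN]
    refine ⟨O, A, B, C, ?_, ?_, ?_, ?_, ?_, ?_⟩
    · ext x
      rw [hTe, Finset.mem_coe, hT x]
      simp only [Set.mem_union, Set.mem_singleton_iff, Set.mem_range, eq_comm, or_assoc]
    · rw [hTe, Set.ncard_coe_finset, Finset.card_union_of_disjoint, Γ.hS]
      · have := Γ.hN
        omega
      · rw [Finset.disjoint_left]
        intro x hx hx'
        exact Γ.hnot x hx' hx
    · intro i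
      exact col_of_det (h1 i).2 (h1 i).1
    · intro i j k hij hjk hik
      obtain ⟨a1, a2, a3, a4⟩ := h2 i j k hij hjk hik
      exact ⟨col_of_det a2 a1, col_of_det a4 a3⟩
    · exact col_of_det h4 h3
    · rintro ℓ ⟨P, d, hd, rfl⟩
      have hle := Γ.line_bound h5 hc P d hd
      refine le_trans (le_of_eq ?_) hle
      rw [← Set.ncard_coe_finset]
      congr 1
      ext x
      rw [hTe, Finset.coe_filter]
      constructor
      · rintro ⟨hx1, hx2⟩
        exact ⟨hx2, (mem_line_iff hd x).1 hx1⟩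
      · rintro ⟨hx1, hx2⟩
        exact ⟨(mem_line_iff hd x).2 hx2, hx1⟩

end Pool.Agent.Results.MP_49538b_co.Nuclei
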